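import Pool.Agent.Q3S.Z2
import Pool.Agent.Q3L.Z

/-!
# [Q3] the 2-part of the conjecture for the good `D`, from the descent (file Q3S/FinalOf.lean)
-/

set_option autoImplicit false

open NumberField IsDedekindDomain
open CM27 NAB CF CU
open scoped Classical ComplexConjugate

namespace Q3

theorem final_of {c : Eis} {S : Finset Eis} (h : Good c S)
    (hdesc : Finite (WK (Dd c S)).toAffine.Point ∧
      (∃ m : ℕ, Odd m ∧ Nat.card (WK (Dd c S)).toAffine.Point = 4 * m) ∧
      ∀ (x : SBSD.Sha (WK (Dd c S))) (k : ℕ), 2 ^ k • x = 0 → x = 0) :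
    SBSD2.TwoPartRankZero (WK (Dd c S)) := by
  obtain ⟨Φ, hΦ, hs, q, hq, hv, hL⟩ := L_value h
  exact Q3S.twoPart_main h.1 Φ hΦ hs q hq hv hL hdesc.1 hdesc.2.1 hdesc.2.2

end Q3
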